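import Mathlib

/-!
# The sequential stage for near twins

`PP` is a set of pairwise disjoint pairs, `R` a set of reserved edges.  The weights of the reserved
edges are changed by `-1, 0, 1`, one pair after another.
-/

set_option autoImplicit false

namespace Pool.Agent.Helper1.WC

open Finset

section

variable {V : Type*} [DecidableEq V]

/-- `v` lies in a member of `S` -/
def Cv (S : Finset (Finset V)) (v : V) : Prop := ∃ U ∈ S, v ∈ U

/-- the sums after the change `δ` -/
def sm (E : Finset (Finset V)) (s₀ : V → ℤ) (δ : Finset V → ℤ) (v : V) : ℤ :=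
  s₀ v + ∑ e ∈ E.filter (fun e => v ∈ e), δ e

/-- the edges which meet `U` in one vertex -/
def prv (E : Finset (Finset V)) (U : Finset V) : Finset (Finset V) :=
  E.filter (fun e => (e ∩ U).card = 1)

open Classical in
/-- the edges `U + w` with `w` in a member of `S` -/
noncomputable def out (E S : Finset (Finset V)) (U : Finset V) : Finset (Finset V) :=
  E.filter (fun e => U ⊆ e ∧ ∃ w ∈ e, w ∉ U ∧ Cv S w)

/-- the allowed values of the sum at a normal vertex -/
def Ok (a b : ℤ) : Prop :=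
  b = a ∨ (b % 3 ≠ 0 ∧ ((a % 3 ≠ 0 ∧ b / 3 = a / 3) ∨
    (a % 3 = 0 ∧ (b / 3 = a / 3 ∨ b / 3 = a / 3 - 1))))

theorem Ok.abs_le {a b : ℤ} (h : Ok a b) : |b - a| ≤ 2 := by
  rw [_root_.abs_le]
  unfold Ok at h
  omega

/-- the lower option -/
def loz (n : Prop) [Decidable n] (σ : ℤ) : ℤ := if n then 0 else if σ % 3 = 1 then 0 else -1

/-- the higher option -/
def hiz (n : Prop) [Decidable n] (σ : ℤ) : ℤ := if n then 1 else if σ % 3 = 2 then 0 else 1

theorem hiz_eq (n : Prop) [Decidable n] (σ : ℤ) :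
    hiz n σ = loz n σ + 1 ∨ hiz n σ = loz n σ + 2 := by
  unfold hiz loz
  split_ifs <;> omega

theorem loz_mem (n : Prop) [Decidable n] (σ : ℤ) : loz n σ = -1 ∨ loz n σ = 0 ∨ loz n σ = 1 := by
  unfold loz
  split_ifs <;> omega

theorem hiz_mem (n : Prop) [Decidable n] (σ : ℤ) : hiz n σ = -1 ∨ hiz n σ = 0 ∨ hiz n σ = 1 := by
  unfold hiz
  split_ifs <;> omega

theorem Ok.step {n : Prop} [Decidable n] {a b f : ℤ} (h : Ok a b) (hn : ¬ n)
    (hf : f = loz n b ∨ f = hiz n b) : Ok a (b + f) ∧ (b + f) % 3 ≠ 0 := by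
  unfold loz hiz at hf
  rw [if_neg hn, if_neg hn] at hf
  unfold Ok at h ⊢
  split_ifs at hf <;> omega

/-- one may reach a residue and avoid a small set -/
theorem choose_shift {α : Type*} [DecidableEq α] (A : Finset α) (lo hi : α → ℤ)
    (hlh : ∀ e ∈ A, hi e = lo e + 1 ∨ hi e = lo e + 2) (a : ℤ) (F : Finset ℤ)
    (hF : 6 * (F.card + 1) ≤ A.card + 2) :
    ∃ f : α → ℤ, (∀ e ∈ A, f e = lo e ∨ f e = hi e) ∧ (∀ e, e ∉ A → f e = 0) ∧
      (a + ∑ e ∈ A, f e) % 3 = 0 ∧ ∑ e ∈ A, f e ∉ F := by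
  classical
  obtain ⟨W, c, hWA, hc, hWc, hWn⟩ : ∃ (W : Finset α) (c : ℤ), W ⊆ A ∧ (c = 1 ∨ c = 2) ∧
      (∀ e ∈ W, hi e = lo e + c) ∧ A.card ≤ 2 * W.card := by
    have h1 := Finset.card_filter_add_card_filter_not (s := A) (fun e => hi e = lo e + 1)
    rcases le_total (A.filter (fun e => ¬ hi e = lo e + 1)).card
      (A.filter (fun e => hi e = lo e + 1)).card with h | h
    · refine ⟨A.filter (fun e => hi e = lo e + 1), 1, Finset.filter_subset _ _, Or.inl rfl, ?_, ?_⟩
      · intro e he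
        exact (Finset.mem_filter.mp he).2
      · omega
    · refine ⟨A.filter (fun e => ¬ hi e = lo e + 1), 2, Finset.filter_subset _ _, Or.inr rfl, ?_, ?_⟩
      · intro e he
        rw [Finset.mem_filter] at he
        rcases hlh e he.1 with h2 | h2
        · exact absurd h2 he.2
        · exact h2
      · omega
  set t₀ := ∑ e ∈ A, lo e with ht₀
  obtain ⟨i₀, hi₀, hi₁⟩ : ∃ i₀ : ℕ, i₀ ≤ 2 ∧ (a + (t₀ + c * i₀)) % 3 = 0 := by
    have h0 : (a + t₀) % 3 = 0 ∨ (a + t₀) % 3 = 1 ∨ (a + t₀) % 3 = 2 := by omega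
    rcases hc with rfl | rfl <;> rcases h0 with h0 | h0 | h0
    · exact ⟨0, by omega, by push_cast; omega⟩
    · exact ⟨2, by omega, by push_cast; omega⟩
    · exact ⟨1, by omega, by push_cast; omega⟩
    · exact ⟨0, by omega, by push_cast; omega⟩
    · exact ⟨1, by omega, by push_cast; omega⟩
    · exact ⟨2, by omega, by push_cast; omega⟩
  obtain ⟨j, hj, hjF⟩ : ∃ j ∈ Finset.range (F.card + 1), t₀ + c * ((i₀ + 3 * j : ℕ) : ℤ) ∉ F := by
    by_contra hcon
    push Not at hcon
    have h1 := Finset.card_le_card_of_injOn (s := Finset.range (F.card + 1)) (t := F)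
      (fun j : ℕ => t₀ + c * ((i₀ + 3 * j : ℕ) : ℤ)) hcon (by
        intro x _ y _ hxy
        have h2 : c * ((i₀ + 3 * x : ℕ) : ℤ) = c * ((i₀ + 3 * y : ℕ) : ℤ) := by
          simpa using hxy
        have hc0 : c ≠ 0 := by rcases hc with rfl | rfl <;> norm_num
        have h3 := mul_left_cancel₀ hc0 h2
        have h4 : i₀ + 3 * x = i₀ + 3 * y := by exact_mod_cast h3
        omega)
    rw [Finset.card_range] at h1
    omega
  have hjW : i₀ + 3 * j ≤ W.card := by
    have := Finset.mem_range.mp hj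
    omega
  obtain ⟨X, hXW, hXc⟩ := Finset.exists_subset_card_eq hjW
  refine ⟨fun e => if e ∈ A then (if e ∈ X then hi e else lo e) else 0, ?_, ?_, ?_⟩
  · intro e he
    simp only [if_pos he]
    split_ifs
    · exact Or.inr rfl
    · exact Or.inl rfl
  · intro e he
    simp [he]
  · have hsum : ∑ e ∈ A, (if e ∈ A then (if e ∈ X then hi e else lo e) else 0) =
        t₀ + c * ((i₀ + 3 * j : ℕ) : ℤ) := by
      have h1 : ∀ e ∈ A, (if e ∈ A then (if e ∈ X then hi e else lo e) else 0) =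
          lo e + (if e ∈ X then c else 0) := by
        intro e he
        rw [if_pos he]
        split_ifs with hX
        · exact hWc e (hXW hX)
        · ring
      rw [Finset.sum_congr rfl h1, Finset.sum_add_distrib, ← Finset.sum_filter]
      have h2 : A.filter (fun e => e ∈ X) = X := by
        ext e
        simp only [Finset.mem_filter]
        exact ⟨fun h => h.2, fun h => ⟨hWA (hXW h), h⟩⟩
      rw [h2, Finset.sum_const, hXc, nsmul_eq_mul]
      ring
    rw [hsum]
    refine ⟨?_, hjF⟩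
    have h3 : a + (t₀ + c * ((i₀ + 3 * j : ℕ) : ℤ)) = (a + (t₀ + c * i₀)) + 3 * (c * j) := by
      push_cast
      ring
    rw [h3]
    omega

end

end Pool.Agent.Helper1.WC
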